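import Mathlib
import Pool.Agent.Q17.NRP.Fin

/-!
# Hilbertian fields: kernels whose Sylow subgroups are abelian away from the characteristic

Let `K` be any Hilbertian field of characteristic `p > 0`, `L/K` a finite Galois extension and
`α : X → Gal(L/K)` a surjective homomorphism, split or not, whose kernel `N` satisfies
(`GoodKernel p N`):

* the Sylow `r`-subgroups of `N` are abelian for all primes `r ≠ p` (no condition for `r = p`),
* the composition factors of `N` have prime order or are classical simple groups in characteristic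
  `p` from the list `Factor p` of the starting library (`Pool/Agent/Y60/DCF/Defs.lean`).

Let `M` be the smallest normal subgroup of `N` such that `N / M` is abelian of order prime to `p`.
(1) `α` has a proper solution if and only if the embedding problem `X / M → Gal(L/K)`, whose kernel
is abelian of order prime to `p`, has a weak solution (a homomorphism of the absolute Galois group
of `K` to `X / M` over `Gal(L/K)`).
(2) In particular every `α` with such a kernel has a proper solution if `N / [N, N]` is a `p`-group,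
and every split one has a proper solution without this condition.
(3) Such homomorphisms (kernel as above, `N / [N, N]` a `p`-group) may be used together with those of
the class `Step p K` of the starting library in infinite towers.
(4) For Hilbertian fields of any characteristic: let `N` be solvable with abelian Sylow subgroups,
or, more generally, let the iterated nilpotent residuals `N_0 = N`, `N_(i+1)` = the nilpotent
residual of `N_i`, end with `1` and have abelian quotients `N_i / N_(i+1)`. Then `α` has a proper
solution if and only if `X / [N, N] → Gal(L/K)` has a weak solution.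
-/

set_option autoImplicit false

open Pool.Agent.Q17.NRP (GoodKernel AbelianSylows AbelianizationIsPGroup residual WeakSolModulo)
open Pool.Agent.Y60.DCF (Step)

namespace Pool.Agent.Results.MP_e9d732_al.AbelianSylowKernels

/-- `K` is Hilbertian (in the form used in frozen statement S03429). -/
def Hilbertian (K : Type) [Field K] : Prop :=
  ∀ (f : Polynomial (Polynomial K)), f.Monic → Irreducible f →
    (f.map (algebraMap (Polynomial K) (FractionRing (Polynomial K)))).Separable →
    ∀ g : Polynomial K, g ≠ 0 →
      ∃ a : K, g.eval a ≠ 0 ∧ Irreducible (f.map (Polynomial.evalRingHom a))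

/-- The embedding problem `α : X → Gal(L/K)` has a proper solution: there are a finite Galois
extension `F` of `K` containing `L` and an isomorphism `γ` of `Gal(F/K)` with `X` such that
`α (γ σ)` is the restriction of `σ` to `L`. -/
def ProperSolution (K L X : Type) [Field K] [Field L] [Algebra K L] [Normal K L] [Group X]
    (α : X →* (L ≃ₐ[K] L)) : Prop :=
  ∃ (F : Type) (_ : Field F) (_ : Algebra K F) (_ : Algebra L F) (_ : IsScalarTower K L F),
    FiniteDimensional K F ∧ IsGalois K F ∧
    ∃ γ : (F ≃ₐ[K] F) ≃* X, ∀ σ : F ≃ₐ[K] F, α (γ σ) = σ.restrictNormal L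

/-- `α` has a section which is a homomorphism. -/
def Splits {K L X : Type} [Field K] [Field L] [Algebra K L] [Group X] (α : X →* (L ≃ₐ[K] L)) :
    Prop :=
  ∃ s : (L ≃ₐ[K] L) →* X, ∀ ρ, α (s ρ) = ρ

/-- The homomorphism `π` is surjective, its kernel `N` is finite, `GoodKernel p N` holds and
`N / [N, N]` is a `p`-group. -/
def GoodStep (p : ℕ) [Fact p.Prime] {W W' : Type} [Group W] [Group W'] (π : W' →* W) : Prop :=
  Function.Surjective π ∧ Finite π.ker ∧ GoodKernel p π.ker ∧ AbelianizationIsPGroup p π.ker

/-- The inverse limit of the sequence `W 0 ← W 1 ← W 2 ← ...`: the group of all sequences `x` with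
`π i (x (i + 1)) = x i`. -/
abbrev InvLim {W : ℕ → Type} [∀ i, Group (W i)] (π : ∀ i, W (i + 1) →* W i) : Subgroup (∀ i, W i) :=
  Pool.Agent.TH15.IGP.Lim π

/-- The defining property of the inverse limit. -/
theorem mem_invLim {W : ℕ → Type} [∀ i, Group (W i)] (π : ∀ i, W (i + 1) →* W i)
    (x : ∀ i, W i) : x ∈ InvLim π ↔ ∀ i, π i (x (i + 1)) = x i := Iff.rfl

/-- The embedding problem over `K` given by `L/K` and the projection `x ↦ e₀ (x 0)` of the inverse
limit of the `W i` to `Gal(L/K)` has a proper solution: there are a Galois extension `F` of `K`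
containing `L` and an isomorphism `γ` of `Gal(F/K)` with the inverse limit, all of whose components
are continuous, such that the action on `L` is `σ ↦ e₀ (component of γ σ in W 0)`. -/
def LimitSolution (K L : Type) [Field K] [Field L] [Algebra K L] {W : ℕ → Type}
    [∀ i, Group (W i)] (π : ∀ i, W (i + 1) →* W i) (e₀ : W 0 ≃* (L ≃ₐ[K] L)) : Prop :=
  ∃ (F : Type) (_ : Field F) (_ : Algebra K F) (_ : Algebra L F) (_ : IsScalarTower K L F)
    (_ : IsGalois K F) (γ : (F ≃ₐ[K] F) ≃* InvLim π),
    (∀ i, IsOpen {σ : F ≃ₐ[K] F | (γ σ).1 i = 1}) ∧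
    ∀ (σ : F ≃ₐ[K] F) (x : L), σ (algebraMap L F x) = algebraMap L F (e₀ ((γ σ).1 0) x)

/-- The nilpotent residual of the subgroup `S`: the intersection of its lower central series
`S, [S, S], [[S, S], S], ...`. -/
def nilpotentResidual {X : Type} [Group X] (S : Subgroup X) : Subgroup X :=
  ⨅ n : ℕ, S.lowerCentralSeries n

/-- The iterated nilpotent residuals of `S`. -/
def residuals {X : Type} [Group X] (S : Subgroup X) : ℕ → Subgroup X
  | 0 => S
  | i + 1 => nilpotentResidual (residuals S i)

/-- The iterated nilpotent residuals `N_i` of `N` end with the trivial group and the quotients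
`N_i / N_(i+1)` are abelian; or `N` is solvable and all its Sylow subgroups are abelian. -/
def AbelianResiduals {X : Type} [Group X] (N : Subgroup X) : Prop :=
  ((∃ k, residuals N k = ⊥) ∧ ∀ i, ⁅residuals N i, residuals N i⁆ ≤ residuals N (i + 1)) ∨
  (Group.IsSolvable N ∧ AbelianSylows 0 N)

/-- Part (1), (2): fields of characteristic `p`. -/
def FiniteCase (p : ℕ) [Fact p.Prime] (K : Type) [Field K] : Prop :=
  ∀ (L X : Type) [Field L] [Algebra K L] [FiniteDimensional K L] [IsGalois K L] [Group X]
    [Finite X] (α : X →* (L ≃ₐ[K] L)), Function.Surjective α → GoodKernel p α.ker →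
    (ProperSolution K L X α ↔ WeakSolModulo K L α (residual p α.ker)) ∧
    (AbelianizationIsPGroup p α.ker ∨ Splits α → ProperSolution K L X α)

/-- Part (3): infinite towers over fields of characteristic `p`. -/
def LimitCase (p : ℕ) [Fact p.Prime] (K : Type) [Field K] : Prop :=
  ∀ (L : Type) [Field L] [Algebra K L] [FiniteDimensional K L] [IsGalois K L]
    (W : ℕ → Type) [∀ i, Group (W i)] (e₀ : W 0 ≃* (L ≃ₐ[K] L)) (π : ∀ i, W (i + 1) →* W i),
    (∀ i, Step p K (π i) ∨ GoodStep p (π i)) → LimitSolution K L π e₀

/-- Part (4): fields of any characteristic. -/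
def AnyCharacteristic (K : Type) [Field K] : Prop :=
  ∀ (L X : Type) [Field L] [Algebra K L] [FiniteDimensional K L] [IsGalois K L]
    [Group X] [Finite X] (α : X →* (L ≃ₐ[K] L)), Function.Surjective α →
    AbelianResiduals α.ker →
    (ProperSolution K L X α ↔ WeakSolModulo K L α ⁅α.ker, α.ker⁆) ∧
    (Splits α → ProperSolution K L X α)

lemma residuals_eq {X : Type} [Group X] (S : Subgroup X) :
    ∀ i, residuals S i = Pool.Agent.Q7.NR.ser S i
  | 0 => rfl
  | i + 1 => by
    change Pool.Agent.Q7.NR.nres (residuals S i) = Pool.Agent.Q7.NR.nres _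
    rw [residuals_eq S i]

end Pool.Agent.Results.MP_e9d732_al.AbelianSylowKernels

open Pool.Agent.Results.MP_e9d732_al.AbelianSylowKernels in
theorem Pool.Agent.Results.MP_e9d732_al.AbelianSylowKernels.result :
    (∀ (p : ℕ) [Fact p.Prime] (K : Type) [Field K] [CharP K p], Hilbertian K →
      FiniteCase p K ∧ LimitCase p K) ∧
    ∀ (K : Type) [Field K], Hilbertian K → AnyCharacteristic K := by
  refine ⟨fun p _ K _ _ hK => ⟨?_, ?_⟩, ?_⟩
  · intro L X _ _ _ _ _ _ α hα hk
    have hsp := Pool.Agent.TH377.IG.spec_hilb (K := K) hK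
    have key : WeakSolModulo K L α (residual p α.ker) → ProperSolution K L X α := fun hw =>
      Pool.Agent.Q17.NRP.proper_of_reg hsp α (Pool.Agent.Q17.NRP.reg_good p α hk hw)
    refine ⟨⟨fun h => Pool.Agent.Q17.NRP.weak_of_proper α _ (Pool.Agent.Q17.NRP.Mp_le p _) h, key⟩,
      ?_⟩
    rintro (h | ⟨s, hs⟩)
    · exact key (Pool.Agent.Q17.NRP.weakSol_of_eq α hα _ (Pool.Agent.Q17.NRP.residual_eq h))
    · exact key (Pool.Agent.Q17.NRP.weakSol_of_section α _ (Pool.Agent.Q17.NRP.Mp_le p _) s hs)
  · intro L _ _ _ _ W _ e₀ π hp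
    exact Pool.Agent.Y60.DC.clsC_hilb p hK W π
      (Pool.Agent.Q17.NRP.tower_cls p K W π hp (Finite.of_equiv _ e₀.symm.toEquiv)) L e₀
  · intro K _ hK L X _ _ _ _ _ _ α hα hN
    have hsp := Pool.Agent.TH377.IG.spec_hilb (K := K) hK
    have key : (∃ k, Pool.Agent.Q7.NR.ser α.ker k = ⊥) ∧
        ∀ i, ⁅Pool.Agent.Q7.NR.ser α.ker i, Pool.Agent.Q7.NR.ser α.ker i⁆ ≤
          Pool.Agent.Q7.NR.ser α.ker (i + 1) := by
      rcases hN with ⟨⟨k, hk⟩, h2⟩ | ⟨h1, h2⟩
      · exact ⟨⟨k, by rw [← residuals_eq]; exact hk⟩,
          fun i => by simpa only [residuals_eq] using h2 i⟩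
      · have h0 : ∀ (p : ℕ) (P : Subgroup X), p.Prime → P ≤ α.ker → IsPGroup p P →
            ∀ x ∈ P, ∀ y ∈ P, x * y = y * x := fun r P hr hPN hP =>
          Pool.Agent.Q17.NRP.AbelianSylows.abR h2 r hr hr.ne_zero P hPN hP
        have h3 := Pool.Agent.Q7.NR.ser_of_syl α.ker h0
        obtain ⟨k, hk⟩ := h1.solvable
        refine ⟨⟨k, by rw [h3, hk, Subgroup.map_bot]⟩, fun i => ?_⟩
        rw [h3, h3, derivedSeries_succ, Subgroup.map_commutator]
    have key2 : WeakSolModulo K L α ⁅α.ker, α.ker⁆ → ProperSolution K L X α := fun hw =>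
      Pool.Agent.Q17.NRP.proper_of_reg hsp α
        (Pool.Agent.Q17.NRP.reg_weak_free α key.1 key.2 hw)
    have hle : ⁅α.ker, α.ker⁆ ≤ α.ker := Subgroup.commutator_le_self _
    refine ⟨⟨fun h => Pool.Agent.Q17.NRP.weak_of_proper α _ hle h, key2⟩, ?_⟩
    rintro ⟨s, hs⟩
    exact key2 (Pool.Agent.Q17.NRP.weakSol_of_section α _ hle s hs)
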