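import Mathlib
import Pool.Agent.Q17.OC.Fin

/-!
# Hilbertian fields: kernels whose simple factors have cyclic outer automorphism groups

Let `k` be a field of characteristic `0` which is ample and contains all roots of unity, for example
an algebraically closed field, and `K` any HILBERTIAN extension field of `k`, for example the
function field of a complex variety. Let `L/K` be a finite Galois extension and `α : X → Gal(L/K)` a
surjective homomorphism, split or not, with kernel `N`.

(1) Let `N₁` be a normal subgroup of `X` contained in `N` such that the composition factors of `N₁`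
are nonabelian simple groups with cyclic outer automorphism group (the alternating groups except
`A_6`, the sporadic groups, `PSL_2(p)`, `PSL_2(2^n)`, ...), the Sylow subgroups of `N / N₁` are
abelian and the composition factors of `N / N₁` have prime order or are nonabelian simple groups
with cyclic outer automorphism group. If the embedding problem `X / [N, N]N₁ → Gal(L/K)`, whose
kernel is abelian, has a weak solution (a homomorphism of the absolute Galois group of `K` to
`X / [N, N]N₁` over `Gal(L/K)`), then `α` has a proper solution, and conversely. In particular `α`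
has a proper solution if it splits, and if `N / N₁` is perfect (for example if `N = N₁`).

(2) The same holds for every `α` in a class of homomorphisms (`OCls K`) which contains those of (1)
with `N = N₁`, the surjections `X → X / [N, N]` for `N` as in (1) with `N₁ = 1`, the surjections
whose kernel is a direct product of finite groups with trivial centre, directly indecomposable and
with cyclic outer automorphism group, and the class `Cls K` of the starting library, and is closed
under composition and quotients over the target; also for all infinite sequences of such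
homomorphisms.
-/

set_option autoImplicit false

open Pool.Agent.Q17.OC (AmpleCyclotomic SimpleCyclicOut PrimeOrCyclicOut AbSylow OCls)
open Pool.Agent.Q17.NRP (WeakSolModulo)
open Pool.Agent.Y60.DC (CompIn)

namespace Pool.Agent.Results.MP_e9d732_al.CyclicOuterKernels

/-- `K` is Hilbertian (in the form used in frozen statement S03429). -/
def Hilbertian (K : Type) [Field K] : Prop :=
  ∀ (f : Polynomial (Polynomial K)), f.Monic → Irreducible f →
    (f.map (algebraMap (Polynomial K) (FractionRing (Polynomial K)))).Separable →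
    ∀ g : Polynomial K, g ≠ 0 →
      ∃ a : K, g.eval a ≠ 0 ∧ Irreducible (f.map (Polynomial.evalRingHom a))

/-- The embedding problem `α : X → Gal(L/K)` has a proper solution: there are a finite Galois
extension `F` of `K` containing `L` and an isomorphism `γ` of `Gal(F/K)` with `X` such that
`α (γ σ)` is the restriction of `σ` to `L`. -/
def ProperSolution (K L X : Type) [Field K] [Field L] [Algebra K L] [Normal K L] [Group X]
    (α : X →* (L ≃ₐ[K] L)) : Prop :=
  ∃ (F : Type) (_ : Field F) (_ : Algebra K F) (_ : Algebra L F) (_ : IsScalarTower K L F),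
    FiniteDimensional K F ∧ IsGalois K F ∧
    ∃ γ : (F ≃ₐ[K] F) ≃* X, ∀ σ : F ≃ₐ[K] F, α (γ σ) = σ.restrictNormal L

/-- `α` has a section which is a homomorphism. -/
def Splits {K L X : Type} [Field K] [Field L] [Algebra K L] [Group X] (α : X →* (L ≃ₐ[K] L)) :
    Prop :=
  ∃ s : (L ≃ₐ[K] L) →* X, ∀ ρ, α (s ρ) = ρ

/-- The composition factors of `N₁` are nonabelian simple groups with cyclic outer automorphism
group; the Sylow subgroups of `N / N₁` are commutative and its composition factors have prime order
or are nonabelian simple groups with cyclic outer automorphism group. -/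
def KernelCondition {X : Type} [Group X] (N N₁ : Subgroup X) [N₁.Normal] : Prop :=
  N₁ ≤ N ∧ CompIn (fun (T : Type) [Group T] => SimpleCyclicOut T) N₁ ∧
  AbSylow (N ⧸ N₁.subgroupOf N) ∧
  CompIn (fun (T : Type) [Group T] => PrimeOrCyclicOut T) (N ⧸ N₁.subgroupOf N)

/-- The inverse limit of the sequence `W 0 ← W 1 ← W 2 ← ...`: the group of all sequences `x` with
`π i (x (i + 1)) = x i`. -/
abbrev InvLim {W : ℕ → Type} [∀ i, Group (W i)] (π : ∀ i, W (i + 1) →* W i) : Subgroup (∀ i, W i) :=
  Pool.Agent.TH15.IGP.Lim π

/-- The defining property of the inverse limit. -/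
theorem mem_invLim {W : ℕ → Type} [∀ i, Group (W i)] (π : ∀ i, W (i + 1) →* W i)
    (x : ∀ i, W i) : x ∈ InvLim π ↔ ∀ i, π i (x (i + 1)) = x i := Iff.rfl

/-- The embedding problem over `K` given by `L/K` and the projection `x ↦ e₀ (x 0)` of the inverse
limit of the `W i` to `Gal(L/K)` has a proper solution: there are a Galois extension `F` of `K`
containing `L` and an isomorphism `γ` of `Gal(F/K)` with the inverse limit, all of whose components
are continuous, such that the action on `L` is `σ ↦ e₀ (component of γ σ in W 0)`. -/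
def LimitSolution (K L : Type) [Field K] [Field L] [Algebra K L] {W : ℕ → Type}
    [∀ i, Group (W i)] (π : ∀ i, W (i + 1) →* W i) (e₀ : W 0 ≃* (L ≃ₐ[K] L)) : Prop :=
  ∃ (F : Type) (_ : Field F) (_ : Algebra K F) (_ : Algebra L F) (_ : IsScalarTower K L F)
    (_ : IsGalois K F) (γ : (F ≃ₐ[K] F) ≃* InvLim π),
    (∀ i, IsOpen {σ : F ≃ₐ[K] F | (γ σ).1 i = 1}) ∧
    ∀ (σ : F ≃ₐ[K] F) (x : L), σ (algebraMap L F x) = algebraMap L F (e₀ ((γ σ).1 0) x)

/-- Part (1). -/
def KernelCase (K : Type) [Field K] : Prop :=
  ∀ (L X : Type) [Field L] [Algebra K L] [FiniteDimensional K L] [IsGalois K L] [Group X]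
    [Finite X] (α : X →* (L ≃ₐ[K] L)), Function.Surjective α →
    ∀ (N₁ : Subgroup X) [N₁.Normal], KernelCondition α.ker N₁ →
    (ProperSolution K L X α ↔ WeakSolModulo K L α (⁅α.ker, α.ker⁆ ⊔ N₁)) ∧
    (Splits α ∨ ⁅α.ker, α.ker⁆ ⊔ N₁ = α.ker → ProperSolution K L X α)

/-- Part (2), one homomorphism. -/
def ClassCase (K : Type) [Field K] : Prop :=
  ∀ (L X : Type) [Field L] [Algebra K L] [FiniteDimensional K L] [IsGalois K L] [Group X]
    (α : X →* (L ≃ₐ[K] L)), OCls K α → ProperSolution K L X α

/-- Part (2), infinite sequences. -/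
def LimitCase (K : Type) [Field K] : Prop :=
  ∀ (L : Type) [Field L] [Algebra K L] [FiniteDimensional K L] [IsGalois K L]
    (W : ℕ → Type) [∀ i, Group (W i)] (e₀ : W 0 ≃* (L ≃ₐ[K] L)) (π : ∀ i, W (i + 1) →* W i),
    (∀ i, OCls K (π i)) → LimitSolution K L π e₀

end Pool.Agent.Results.MP_e9d732_al.CyclicOuterKernels

open Pool.Agent.Results.MP_e9d732_al.CyclicOuterKernels in
theorem Pool.Agent.Results.MP_e9d732_al.CyclicOuterKernels.result :
    (∀ (k K : Type) [Field k] [Field K] [Algebra k K], AmpleCyclotomic k → Hilbertian K →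
      KernelCase K ∧ ClassCase K ∧ LimitCase K) ∧
    ∀ (k : Type) [Field k] [IsAlgClosed k] [CharZero k], AmpleCyclotomic k := by
  refine ⟨fun k K _ _ _ hk hK => ⟨?_, ?_, ?_⟩, fun k _ _ _ => Pool.Agent.Q17.OC.ample_closed k⟩
  · intro L X _ _ _ _ _ _ α hα N₁ _ hN
    obtain ⟨h1, h2, h3, h4⟩ := hN
    have hsp := Pool.Agent.TH377.IG.spec_hilb (K := K) hK
    have key : WeakSolModulo K L α (⁅α.ker, α.ker⁆ ⊔ N₁) → ProperSolution K L X α := fun hw =>
      Pool.Agent.Q17.NRP.proper_of_reg hsp α
        (Pool.Agent.Q17.OC.reg_weak_gen hk α N₁ h1 h2 h3 h4 hw)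
    have hle : ⁅α.ker, α.ker⁆ ⊔ N₁ ≤ α.ker := sup_le (Subgroup.commutator_le_self _) h1
    refine ⟨⟨fun h => Pool.Agent.Q17.NRP.weak_of_proper α _ hle h, key⟩, ?_⟩
    rintro (⟨s, hs⟩ | h)
    · exact key (Pool.Agent.Q17.NRP.weakSol_of_section α _ hle s hs)
    · exact key (Pool.Agent.Q17.OC.weak_perfect α hα N₁ h)
  · intro L X _ _ _ _ _ α h
    have hsp := Pool.Agent.TH377.IG.spec_hilb (K := K) hK
    obtain ⟨h1, h2⟩ := Pool.Agent.Q17.OC.OCls.reg hk h
    exact Pool.Agent.Q17.NRP.proper_of_reg hsp α h2
  · intro L _ _ _ _ W _ e₀ π hp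
    exact Pool.Agent.Q17.OC.tower_hilb hk hK W π hp L e₀
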