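import Mathlib
import Pool.Agent.Q216.IGP.RelField

/-!
# Split embedding problems: solutions with few images of metacyclic groups

For every field `K`: if all finite split embedding problems `G → Gal(F₁/K)` are properly solvable,
then they are properly solvable with `F` such that in the absolute Galois group of `F₁` all
involutions are trivial on `F` (so `F` is totally real over every ordered field `F₁`) and all
closed metacyclic subgroups have images in `Gal(F/F₁)` all of whose Sylow subgroups are cyclic (so
all commuting pairs have cyclic images).  In particular the open problem for all Hilbertian fields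
is equivalent to its version with such solutions.
-/

set_option autoImplicit false

namespace Pool.Agent.Results.MP_e9d732_al.RigidSolutions

open Pool.Agent.Q216.IGP

/-- The embedding problem `α` has a proper solution. -/
def Solvable (K F1 G : Type) [Field K] [Field F1] [Algebra K F1] [Normal K F1] [Group G]
    (α : G →* (F1 ≃ₐ[K] F1)) : Prop :=
  ∃ (F : Type) (_ : Field F) (_ : Algebra K F) (_ : Algebra F1 F) (_ : IsScalarTower K F1 F),
    FiniteDimensional K F ∧ IsGalois K F ∧
      ∃ γ : (F ≃ₐ[K] F) ≃* G, ∀ σ : F ≃ₐ[K] F, α (γ σ) = σ.restrictNormal F1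

/-- Let `Ω` be the algebraic closure of `F`, with the Krull topology on its group of automorphisms
over `K`, and let `σ`, `τ` be automorphisms of `Ω` over `K` which are trivial on `F1`.  If
`σ ^ 2 = 1` then `σ` is trivial on `F`.  If `τ σ τ⁻¹` lies in the closure of the group generated by
`σ` then all Sylow subgroups of the group generated by the restrictions of `σ` and `τ` to `F` are
cyclic. -/
def IsRigid (K F1 F : Type) [Field K] [Field F1] [Field F] [Algebra K F] [Algebra F1 F]
    [IsGalois K F] : Prop :=
  ∀ σ τ : Gal((AlgebraicClosure F)/K),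
    (∀ x : F1, σ (algebraMap F (AlgebraicClosure F) (algebraMap F1 F x)) =
      algebraMap F (AlgebraicClosure F) (algebraMap F1 F x)) →
    (∀ x : F1, τ (algebraMap F (AlgebraicClosure F) (algebraMap F1 F x)) =
      algebraMap F (AlgebraicClosure F) (algebraMap F1 F x)) →
    (σ ^ 2 = 1 → AlgEquiv.restrictNormalHom F σ = 1) ∧
    (τ * σ * τ⁻¹ ∈ closure ((Subgroup.zpowers σ : Subgroup Gal((AlgebraicClosure F)/K)) :
        Set Gal((AlgebraicClosure F)/K)) →
      IsZGroup (Subgroup.closure ({AlgEquiv.restrictNormalHom F σ,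
        AlgEquiv.restrictNormalHom F τ} : Set Gal(F/K))))

/-- The embedding problem `α` has a proper solution `F` which is rigid over `F1`. -/
def RigidlySolvable (K F1 G : Type) [Field K] [Field F1] [Algebra K F1] [Normal K F1] [Group G]
    (α : G →* (F1 ≃ₐ[K] F1)) : Prop :=
  ∃ (F : Type) (_ : Field F) (_ : Algebra K F) (_ : Algebra F1 F) (_ : IsScalarTower K F1 F)
    (_ : IsGalois K F), FiniteDimensional K F ∧ IsRigid K F1 F ∧
      ∃ γ : (F ≃ₐ[K] F) ≃* G, ∀ σ : F ≃ₐ[K] F, α (γ σ) = σ.restrictNormal F1

/-- The field `K` is Hilbertian. -/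
def IsHilbertian (K : Type) [Field K] : Prop :=
  ∀ (f : Polynomial (Polynomial K)), f.Monic → Irreducible f →
    (f.map (algebraMap (Polynomial K) (FractionRing (Polynomial K)))).Separable →
    ∀ g : Polynomial K, g ≠ 0 →
      ∃ a : K, g.eval a ≠ 0 ∧ Irreducible (f.map (Polynomial.evalRingHom a))

/-- All finite split embedding problems over `K` have the property `P`. -/
def AllSplit (K : Type) [Field K]
    (P : ∀ (F1 G : Type) [Field F1] [Algebra K F1] [Normal K F1] [Group G],
      (G →* (F1 ≃ₐ[K] F1)) → Prop) : Prop :=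
  ∀ (F1 : Type) [Field F1] [Algebra K F1] [FiniteDimensional K F1] [IsGalois K F1]
    (G : Type) [Group G] [Finite G] (α : G →* (F1 ≃ₐ[K] F1)),
    Function.Surjective α → (∃ s : (F1 ≃ₐ[K] F1) →* G, ∀ x, α (s x) = x) → P F1 G α

theorem main (K : Type) [Field K] (h : AllSplit K fun F1 G _ _ _ _ α => Solvable K F1 G α) :
    AllSplit K fun F1 G _ _ _ _ α => RigidlySolvable K F1 G α := by
  classical
  rintro F1 _ _ _ _ G _ _ α hα ⟨s, hs⟩
  have hfin : Fintype α.ker := Fintype.ofFinite α.ker
  have hfinΓ : Finite (F1 ≃ₐ[K] F1) := inferInstance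
  have hne : NeZero (Nat.card α.ker ^ 2) := ⟨pow_ne_zero _ Nat.card_pos.ne'⟩
  have hfinR : Finite (RelCov α s) := by
    have h1 : Finite (Cov α.ker (Nat.card α.ker ^ 2) × (F1 ≃ₐ[K] F1)) := inferInstance
    exact Finite.of_equiv _ (SemidirectProduct.equivProd (φ := relAct α s)).symm
  obtain ⟨N, i1, i2, i3, i4, hfd, hgal, e, he⟩ := h F1 (RelCov α s)
    (SemidirectProduct.rightHom : RelCov α s →* (F1 ≃ₐ[K] F1))
    SemidirectProduct.rightHom_surjective ⟨SemidirectProduct.inr, fun x => by simp⟩
  have hfix : ∀ σ : Gal(N/K), (∀ x : F1, σ (algebraMap F1 N x) = algebraMap F1 N x) ↔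
      (e σ).right = 1 := by
    intro σ
    have h1 : (e σ).right = σ.restrictNormal F1 := he σ
    rw [h1]
    constructor
    · intro h2
      ext x
      apply (algebraMap F1 N).injective
      rw [AlgEquiv.restrictNormal_commutes]
      exact h2 x
    · intro h2 x
      have h3 := AlgEquiv.restrictNormal_commutes σ F1 x
      rw [h2] at h3
      exact h3.symm
  obtain ⟨F, hF, j1, j2, γ, hrig, hγ⟩ := exists_rigid_subfield (L := F1) α s hs e hfix
  have t : IsScalarTower K F1 F := by
    refine IsScalarTower.of_algebraMap_eq fun x => ?_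
    apply (algebraMap F N).injective
    rw [← IsScalarTower.algebraMap_apply F1 F N, ← IsScalarTower.algebraMap_apply K F N,
      ← IsScalarTower.algebraMap_apply K F1 N]
  refine ⟨F, inferInstance, inferInstance, j1, t, hF, inferInstance, hrig, γ, fun σ' => ?_⟩
  obtain ⟨σ, rfl⟩ := (AlgEquiv.restrictNormalHom_surjective (F := K) (K₁ := F) N) σ'
  rw [hγ, alpha_relProj α s hs]
  have h1 : SemidirectProduct.rightHom (e σ) = σ.restrictNormal F1 := he σ
  rw [h1]
  ext x
  apply (algebraMap F1 N).injective
  rw [AlgEquiv.restrictNormal_commutes, IsScalarTower.algebraMap_apply F1 F N,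
    IsScalarTower.algebraMap_apply F1 F N, AlgEquiv.restrictNormal_commutes]
  exact (AlgEquiv.restrictNormal_commutes σ F _).symm

theorem weaken (K : Type) [Field K]
    (h : AllSplit K fun F1 G _ _ _ _ α => RigidlySolvable K F1 G α) :
    AllSplit K fun F1 G _ _ _ _ α => Solvable K F1 G α := by
  intro F1 _ _ _ _ G _ _ α hα hs
  obtain ⟨F, i1, i2, i3, i4, i5, i6, _, γ, hγ⟩ := h F1 G α hα hs
  exact ⟨F, i1, i2, i3, i4, i6, i5, γ, hγ⟩

theorem result :
    (∀ (K : Type) [Field K],
      (AllSplit K fun F1 G _ _ _ _ α => Solvable K F1 G α) ↔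
        AllSplit K fun F1 G _ _ _ _ α => RigidlySolvable K F1 G α) ∧
    ((∀ (K : Type) [Field K], IsHilbertian K →
        AllSplit K fun F1 G _ _ _ _ α => Solvable K F1 G α) ↔
      ∀ (K : Type) [Field K], IsHilbertian K →
        AllSplit K fun F1 G _ _ _ _ α => RigidlySolvable K F1 G α) :=
  ⟨fun K _ => ⟨main K, weaken K⟩, ⟨fun h K _ hK => main K (h K hK),
    fun h K _ hK => weaken K (h K hK)⟩⟩

end Pool.Agent.Results.MP_e9d732_al.RigidSolutions
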