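import Mathlib
import Pool.Agent.Q24.PS.Sol

/-!
# Split embedding problems: solutions which are universal for small kernels

For every field `K`: if all finite split embedding problems `G → Gal(F₁/K)` are properly solvable,
then for every `n` they have proper solutions `F` such that all embedding problems `A → Gal(F/K)`,
split or not, with a kernel of order at most `n`, which split over the given complement, are
properly solvable, and such that for every group `D` of automorphisms of the algebraic closure
which are trivial on `F₁`, all embedding problems for the image of `D` in `Gal(F/F₁)` with kernels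
of order at most `n` are solved by homomorphisms on `D`.
-/

set_option autoImplicit false

namespace Pool.Agent.Results.MP_e9d732_al.UniversalSolutions

open Pool.Agent.Q24.PS

/-- The embedding problem `α` has a proper solution. -/
def Solvable (K F1 G : Type) [Field K] [Field F1] [Algebra K F1] [Normal K F1] [Group G]
    (α : G →* (F1 ≃ₐ[K] F1)) : Prop :=
  ∃ (F : Type) (_ : Field F) (_ : Algebra K F) (_ : Algebra F1 F) (_ : IsScalarTower K F1 F),
    FiniteDimensional K F ∧ IsGalois K F ∧
      ∃ γ : (F ≃ₐ[K] F) ≃* G, ∀ σ : F ≃ₐ[K] F, α (γ σ) = σ.restrictNormal F1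

/-- `σ` is an automorphism over `K` of the algebraic closure of `F` which is trivial on `F1`. -/
def FixesBase {K F1 F : Type} [Field K] [Field F1] [Field F] [Algebra K F] [Algebra F1 F]
    (σ : Gal((AlgebraicClosure F)/K)) : Prop :=
  ∀ x : F1, σ (algebraMap F (AlgebraicClosure F) (algebraMap F1 F x)) =
    algebraMap F (AlgebraicClosure F) (algebraMap F1 F x)

/-- The image in `Gal(F/K)` of a group `D` of automorphisms of the algebraic closure of `F`. -/
noncomputable def image {K F : Type} [Field K] [Field F] [Algebra K F] [IsGalois K F]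
    (D : Subgroup Gal((AlgebraicClosure F)/K)) : Subgroup Gal(F/K) :=
  D.map (AlgEquiv.restrictNormalHom F)

/-- The homomorphism `φ` is continuous for the Krull topology: it is trivial on an open
subgroup. -/
def Cont {K F Q : Type} [Field K] [Field F] [Algebra K F] [Group Q]
    {D : Subgroup Gal((AlgebraicClosure F)/K)} (φ : D →* Q) : Prop :=
  ∃ U : Subgroup Gal((AlgebraicClosure F)/K),
    IsOpen (U : Set Gal((AlgebraicClosure F)/K)) ∧ ∀ σ : D, σ.1 ∈ U → φ σ = 1

/-- (2): For all groups `D` of automorphisms over `K` of the algebraic closure of `F` which are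
trivial on `F1`, every embedding problem for the image of `D` in `Gal(F/K)` with a kernel of order
at most `n` has a (weak) solution on `D`. -/
def ProjectiveUpTo (n : ℕ) (K F1 F : Type) [Field K] [Field F1] [Field F] [Algebra K F]
    [Algebra F1 F] [IsGalois K F] : Prop :=
  ∀ D : Subgroup Gal((AlgebraicClosure F)/K), (∀ σ ∈ D, FixesBase (F1 := F1) σ) →
    ∀ (A : Type) [Group A] [Finite A] (β : A →* Gal(F/K)),
      image D ≤ β.range → Nat.card β.ker ≤ n →
      ∃ φ : D →* A, Cont φ ∧ ∀ σ : D, β (φ σ) = AlgEquiv.restrictNormalHom F σ.1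

/-- (3): If `D` is a group of automorphisms over `K` of the algebraic closure of `F` which are
trivial on `F1`, and the image of `D` in `Gal(F/K)` contains a noncyclic `p`-group `P`, then `D`
contains a group `D'` with a noncyclic image contained in `P` which maps continuously onto all
`p`-groups of order at most `n` with two generators. -/
def RichUpTo (p n : ℕ) (K F1 F : Type) [Field K] [Field F1] [Field F] [Algebra K F]
    [Algebra F1 F] [IsGalois K F] : Prop :=
  ∀ D : Subgroup Gal((AlgebraicClosure F)/K), (∀ σ ∈ D, FixesBase (F1 := F1) σ) →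
    ∀ P : Subgroup Gal(F/K), P ≤ image D → IsPGroup p P → ¬ IsCyclic P →
      ∃ D' : Subgroup Gal((AlgebraicClosure F)/K), D' ≤ D ∧ image D' ≤ P ∧
        ¬ IsCyclic (image D') ∧
        ∀ (Q : Type) [Group Q] [Finite Q] (a b : Q), Subgroup.closure {a, b} = ⊤ →
          IsPGroup p Q → Nat.card Q ≤ n → ∃ φ : D' →* Q, Function.Surjective φ ∧ Cont φ

/-- (1): The solution `F`, `γ` of the embedding problem `G → Gal(F1/K)` with section `s` is such
that every embedding problem `β : A → Gal(F/K)` with a kernel of order at most `n` which splits over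
the complement `s(Gal(F1/K))` has a proper solution. -/
def SolvesSmall {K F1 F G : Type} [Field K] [Field F1] [Field F] [Algebra K F] [Algebra K F1]
    [IsGalois K F] [Group G] (n : ℕ) (s : (F1 ≃ₐ[K] F1) →* G) (γ : (F ≃ₐ[K] F) ≃* G) : Prop :=
  ∀ (A : Type) [Group A] [Finite A] (β : A →* (F ≃ₐ[K] F)), Function.Surjective β →
    Nat.card β.ker ≤ n → (∃ s' : (F1 ≃ₐ[K] F1) →* A, ∀ x, γ (β (s' x)) = s x) →
    Solvable K F A β

/-- The embedding problem `α` with section `s` has a proper solution `F` with the properties (1),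
(2) and (3). -/
def UniversallySolvable (n : ℕ) (K F1 G : Type) [Field K] [Field F1] [Algebra K F1] [Normal K F1]
    [Group G] (α : G →* (F1 ≃ₐ[K] F1)) (s : (F1 ≃ₐ[K] F1) →* G) : Prop :=
  ∃ (F : Type) (_ : Field F) (_ : Algebra K F) (_ : Algebra F1 F) (_ : IsScalarTower K F1 F)
    (_ : IsGalois K F), FiniteDimensional K F ∧
      (∃ γ : (F ≃ₐ[K] F) ≃* G, (∀ σ : F ≃ₐ[K] F, α (γ σ) = σ.restrictNormal F1) ∧
        SolvesSmall n s γ) ∧
      ProjectiveUpTo n K F1 F ∧ ∀ p : ℕ, p.Prime → RichUpTo p n K F1 F

/-- The field `K` is Hilbertian. -/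
def IsHilbertian (K : Type) [Field K] : Prop :=
  ∀ (f : Polynomial (Polynomial K)), f.Monic → Irreducible f →
    (f.map (algebraMap (Polynomial K) (FractionRing (Polynomial K)))).Separable →
    ∀ g : Polynomial K, g ≠ 0 →
      ∃ a : K, g.eval a ≠ 0 ∧ Irreducible (f.map (Polynomial.evalRingHom a))

/-- All finite embedding problems `α` over `K` with a section `s` have the property `P`. -/
def AllSplit (K : Type) [Field K]
    (P : ∀ (F1 G : Type) [Field F1] [Algebra K F1] [Normal K F1] [Group G],
      (G →* (F1 ≃ₐ[K] F1)) → ((F1 ≃ₐ[K] F1) →* G) → Prop) : Prop :=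
  ∀ (F1 : Type) [Field F1] [Algebra K F1] [FiniteDimensional K F1] [IsGalois K F1]
    (G : Type) [Group G] [Finite G] (α : G →* (F1 ≃ₐ[K] F1)) (s : (F1 ≃ₐ[K] F1) →* G),
    (∀ x, α (s x) = x) → P F1 G α s

theorem main (n : ℕ) (K : Type) [Field K]
    (h : AllSplit K fun F1 G _ _ _ _ α _ => Solvable K F1 G α) :
    AllSplit K fun F1 G _ _ _ _ α s => UniversallySolvable n K F1 G α s := by
  classical
  intro F1 _ _ _ _ G _ _ α s hs
  have hfinΓ : Finite (F1 ≃ₐ[K] F1) := inferInstance
  have hfinR : Finite (RelCov α s Set.univ n) := inferInstance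
  obtain ⟨N, i1, i2, i3, i4, hfd, hgal, e, he⟩ := h F1 (RelCov α s Set.univ n)
    (SemidirectProduct.rightHom : RelCov α s Set.univ n →* (F1 ≃ₐ[K] F1))
    SemidirectProduct.inr (fun x => by simp)
  have hfix : ∀ σ : Gal(N/K), (∀ x : F1, σ (algebraMap F1 N x) = algebraMap F1 N x) ↔
      (e σ).right = 1 := by
    intro σ
    have h1 : (e σ).right = σ.restrictNormal F1 := he σ
    rw [h1]
    constructor
    · intro h2
      ext x
      apply (algebraMap F1 N).injective
      rw [AlgEquiv.restrictNormal_commutes]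
      exact h2 x
    · intro h2 x
      have h3 := AlgEquiv.restrictNormal_commutes σ F1 x
      rw [h2] at h3
      exact h3.symm
  obtain ⟨F, hF, j1, j2, γ, hproj, hγ, hsm⟩ :=
    exists_proj_subfield (L := F1) α s Set.univ n hs e hfix
  have t : IsScalarTower K F1 F := by
    refine IsScalarTower.of_algebraMap_eq fun x => ?_
    apply (algebraMap F N).injective
    rw [← IsScalarTower.algebraMap_apply F1 F N, ← IsScalarTower.algebraMap_apply K F N,
      ← IsScalarTower.algebraMap_apply K F1 N]
  refine ⟨F, inferInstance, inferInstance, j1, t, hF, inferInstance, ⟨γ, fun σ' => ?_, ?_⟩, ?_,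
    fun p hp => ?_⟩
  · obtain ⟨σ, rfl⟩ := (AlgEquiv.restrictNormalHom_surjective (F := K) (K₁ := F) N) σ'
    rw [hγ, alpha_relProj α s _ _ hs]
    have h1 : SemidirectProduct.rightHom (e σ) = σ.restrictNormal F1 := he σ
    rw [h1]
    ext x
    apply (algebraMap F1 N).injective
    rw [AlgEquiv.restrictNormal_commutes, IsScalarTower.algebraMap_apply F1 F N,
      IsScalarTower.algebraMap_apply F1 F N, AlgEquiv.restrictNormal_commutes]
    exact (AlgEquiv.restrictNormal_commutes σ F _).symm
  · rintro A _ _ β hβ hc ⟨s', hs'⟩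
    obtain ⟨φ, hφ1, hφ2⟩ := hsm A β s' hβ hs' hc (fun r _ _ => Set.mem_univ r)
    obtain ⟨F', k1, k2, k3, k4, δ, hδ⟩ := exists_between β φ hφ1 hφ2
    exact ⟨F', inferInstance, inferInstance, k2, k4, inferInstance, k1, δ, hδ⟩
  · intro D hD A _ _ β h1 h2
    exact hproj D hD A β h1 h2 (fun r _ _ => Set.mem_univ r)
  · exact rich_of_proj hp (Set.mem_univ p) hproj

theorem weaken (K : Type) [Field K]
    (h : ∀ n : ℕ, AllSplit K fun F1 G _ _ _ _ α s => UniversallySolvable n K F1 G α s) :
    AllSplit K fun F1 G _ _ _ _ α _ => Solvable K F1 G α := by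
  intro F1 _ _ _ _ G _ _ α s hs
  obtain ⟨F, i1, i2, i3, i4, i5, i6, ⟨γ, hγ, -⟩, -⟩ := h 0 F1 G α s hs
  exact ⟨F, i1, i2, i3, i4, i6, i5, γ, hγ⟩

theorem result :
    (∀ (K : Type) [Field K],
      (AllSplit K fun F1 G _ _ _ _ α _ => Solvable K F1 G α) ↔
        ∀ n : ℕ, AllSplit K fun F1 G _ _ _ _ α s => UniversallySolvable n K F1 G α s) ∧
    ((∀ (K : Type) [Field K], IsHilbertian K →
        AllSplit K fun F1 G _ _ _ _ α _ => Solvable K F1 G α) ↔
      ∀ (K : Type) [Field K], IsHilbertian K → ∀ n : ℕ,
        AllSplit K fun F1 G _ _ _ _ α s => UniversallySolvable n K F1 G α s) :=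
  ⟨fun K _ => ⟨fun h n => main n K h, weaken K⟩, ⟨fun h K _ hK n => main n K (h K hK),
    fun h K _ hK => weaken K (h K hK)⟩⟩

end Pool.Agent.Results.MP_e9d732_al.UniversalSolutions
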